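import Pool.Agent.Lib.MP_23b606_ag.T1.Defs

/-! U/Triv: if all `∏ P_j ^ n_j(m)` are `1` then the `P_j` are powers of one polynomial. -/

set_option autoImplicit false

open Polynomial

namespace T1

/-- Root multiplicity of a product of powers. -/
private theorem rootMult_prod {L : Type} [Field L] {J : Type} (P : J → L[X])
    (hP : ∀ j, (P j).Monic) (k : J → ℕ) (a : L) (S : Finset J) :
    rootMultiplicity a (∏ j ∈ S, P j ^ k j) = ∑ j ∈ S, k j * rootMultiplicity a (P j) := by
  classical
  have hpow : ∀ (j : J) (e : ℕ), rootMultiplicity a (P j ^ e) = e * rootMultiplicity a (P j) := by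
    intro j e
    induction e with
    | zero => simp
    | succ e ih =>
      rw [pow_succ, rootMultiplicity_mul (((hP j).pow e).mul (hP j)).ne_zero, ih]
      ring
  induction S using Finset.induction_on with
  | empty => simp
  | insert j S hj ih =>
    rw [Finset.prod_insert hj, Finset.sum_insert hj, rootMultiplicity_mul, hpow, ih]
    exact (((hP j).pow _).mul (monic_prod_of_monic _ _ fun i _ => (hP i).pow _)).ne_zero

theorem exists_pow_of_prod_eq_one {M : Type} [AddCommGroup M] {L : Type} [Field L]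
    [IsAlgClosed L] {J : Type} [Fintype J] (nn : J → M →+ ℤ) (lam : J → ℕ)
    (hpos : ∀ j, 1 ≤ lam j)
    (hprim : ∀ μ : J → ℤ, ∑ j, μ j • nn j = 0 → ∃ c : ℤ, ∀ j, μ j = c * lam j)
    (P : J → L[X]) (hP : ∀ j, (P j).Monic)
    (h1 : ∀ m : M, ∏ j, (algebraMap L[X] (RatFunc L) (P j)) ^ (nn j m) = 1) :
    ∃ q : L[X], q.Monic ∧ ∀ j, P j = q ^ lam j := by
  classical
  have hne : ∀ j, algebraMap L[X] (RatFunc L) (P j) ≠ 0 := fun j =>
    (map_ne_zero_iff _ (IsFractionRing.injective L[X] (RatFunc L))).2 (hP j).ne_zero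
  -- multiply out the negative exponents
  have h2 : ∀ m : M, ∏ j, P j ^ (nn j m).toNat = ∏ j, P j ^ (-(nn j m)).toNat := by
    intro m
    apply IsFractionRing.injective L[X] (RatFunc L)
    rw [map_prod, map_prod]
    have h3 : ∏ j, algebraMap L[X] (RatFunc L) (P j ^ (nn j m).toNat)
        = (∏ j, (algebraMap L[X] (RatFunc L) (P j)) ^ (nn j m))
          * ∏ j, algebraMap L[X] (RatFunc L) (P j ^ (-(nn j m)).toNat) := by
      rw [← Finset.prod_mul_distrib]
      refine Finset.prod_congr rfl fun j _ => ?_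
      rw [map_pow, map_pow, ← zpow_natCast, ← zpow_natCast, ← zpow_add₀ (hne j)]
      congr 1
      omega
    rw [h3, h1 m, one_mul]
  -- the multiplicities
  have h4 : ∀ a : L, ∃ c : ℤ, ∀ j, (rootMultiplicity a (P j) : ℤ) = c * lam j := by
    intro a
    refine hprim _ ?_
    ext m
    rw [AddMonoidHom.finsetSum_apply, AddMonoidHom.zero_apply]
    have h5 := congrArg (rootMultiplicity a) (h2 m)
    rw [rootMult_prod P hP, rootMult_prod P hP] at h5
    have h6 : ∑ j, (((nn j m).toNat : ℤ) * (rootMultiplicity a (P j) : ℤ)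
        - ((-(nn j m)).toNat : ℤ) * (rootMultiplicity a (P j) : ℤ)) = 0 := by
      rw [Finset.sum_sub_distrib, sub_eq_zero]
      exact_mod_cast h5
    rw [← h6]
    refine Finset.sum_congr rfl fun j _ => ?_
    rw [← sub_mul, AddMonoidHom.smul_apply, smul_eq_mul, mul_comm]
    congr 1
    omega
  rcases isEmpty_or_nonempty J with hJ | ⟨⟨j0⟩⟩
  · exact ⟨1, monic_one, fun j => hJ.elim j⟩
  choose c hc using h4
  have hc0 : ∀ a, 0 ≤ c a := by
    intro a
    by_contra hneg
    push Not at hneg
    have h5 := hc a j0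
    have h6 : (1 : ℤ) ≤ lam j0 := by exact_mod_cast hpos j0
    have h7 : (0 : ℤ) ≤ (rootMultiplicity a (P j0) : ℤ) := Int.natCast_nonneg _
    nlinarith
  have hmult : ∀ a j, rootMultiplicity a (P j) = (c a).toNat * lam j := by
    intro a j
    have h5 := hc a j
    have h6 : (((c a).toNat : ℕ) : ℤ) = c a := Int.toNat_of_nonneg (hc0 a)
    have h7 : ((rootMultiplicity a (P j) : ℕ) : ℤ) = (((c a).toNat * lam j : ℕ) : ℤ) := by
      push_cast
      rw [h6]
      exact h5
    exact_mod_cast h7
  have hroots : ∀ j, (P j).roots.toFinset = (P j0).roots.toFinset := by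
    intro j
    ext a
    rw [Multiset.mem_toFinset, Multiset.mem_toFinset, ← Multiset.count_pos, ← Multiset.count_pos,
      count_roots, count_roots, hmult, hmult]
    have h5 := hpos j
    have h6 := hpos j0
    constructor
    · intro h
      exact Nat.mul_pos (Nat.pos_of_mul_pos_right h) h6
    · intro h
      exact Nat.mul_pos (Nat.pos_of_mul_pos_right h) h5
  refine ⟨∏ a ∈ (P j0).roots.toFinset, (X - C a) ^ (c a).toNat,
    monic_prod_of_monic _ _ fun a _ => (monic_X_sub_C a).pow _, fun j => ?_⟩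
  rw [← Finset.prod_pow]
  conv_lhs => rw [(IsAlgClosed.splits (P j)).eq_prod_roots_of_monic (hP j)]
  rw [Finset.prod_multiset_map_count, hroots j]
  refine Finset.prod_congr rfl fun a _ => ?_
  rw [count_roots, hmult, ← pow_mul]

end T1
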